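import Pool.Agent.TH296.Nut.Basic

/-!
Regular nut graphs of degree `n - 4` on `n` vertices: the complement is a cubic graph, with simple
eigenvalue `-1` and an eigenvector without zero entries.
-/

set_option autoImplicit false

namespace Pool.Agent.J6H27.Nut4

open Finset Pool.Agent.TH296.Nut

/-- The weight matrix `W` of a cubic graph with simple eigenvalue `-1` and an eigenvector `x`
without zero entries. -/
structure Cub (V : Type) [Fintype V] (W : V → V → ℝ) (x : V → ℝ) : Prop where
  zo : ∀ v w, W v w = 0 ∨ W v w = 1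
  symm : ∀ v w, W v w = W w v
  diag : ∀ v, W v v = 0
  deg : ∀ v, ∑ w, W v w = 3
  nz : ∀ v, x v ≠ 0
  ker : ∀ v, x v + ∑ w, W v w * x w = 0
  uniq : ∀ y : V → ℝ, (∀ v, y v + ∑ w, W v w * y w = 0) → ∃ c : ℝ, ∀ v, y v = c * x v

/-- Summing the conditions over all vertices. -/
theorem Cub.sum_eq {V : Type} [Fintype V] {W : V → V → ℝ} {x : V → ℝ} (h : Cub V W x)
    (y : V → ℝ) : ∑ v, (y v + ∑ w, W v w * y w) = 4 * ∑ v, y v := by
  have h1 : ∑ v, ∑ w, W v w * y w = 3 * ∑ v, y v := by
    rw [sum_comm, mul_sum]
    apply sum_congr rfl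
    intro w _
    rw [← sum_mul]
    congr 1
    rw [← h.deg w]
    exact sum_congr rfl fun v _ => h.symm v w
  rw [sum_add_distrib, h1]
  ring

theorem Cub.mem {V : Type} [Fintype V] {W : V → V → ℝ} {x : V → ℝ} (h : Cub V W x)
    {ρ : ℕ} (hn : Fintype.card V = ρ + 4) (hρ : 0 < ρ) : Fintype.card V ∈ nutOrders ρ := by
  classical
  have hsum : ∀ (v : V) (y : V → ℝ), ∑ w, (if v = w then (0 : ℝ) else 1 - W v w) * y w =
      ∑ w, y w - (y v + ∑ w, W v w * y w) := by
    intro v y
    have h1 : ∀ w, (if v = w then (0 : ℝ) else 1 - W v w) * y w =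
        y w - (if v = w then y w else 0) - W v w * y w := by
      intro w
      by_cases hvw : v = w
      · subst hvw
        rw [if_pos rfl, if_pos rfl, h.diag]
        ring
      · rw [if_neg hvw, if_neg hvw]
        ring
    rw [sum_congr rfl (fun w _ => h1 w), sum_sub_distrib, sum_sub_distrib, sum_ite_eq,
      if_pos (mem_univ v)]
    ring
  have hx0 : ∑ w, x w = 0 := by
    have h1 := h.sum_eq x
    rw [sum_congr rfl (fun v _ => h.ker v), sum_const_zero] at h1
    linarith
  have key : NW V ρ (fun v w => if v = w then (0 : ℝ) else 1 - W v w) x := by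
    refine ⟨?_, ?_, ?_, ?_, h.nz, ?_, ?_⟩
    · intro v w
      by_cases hvw : v = w
      · left
        exact if_pos hvw
      · rcases h.zo v w with h1 | h1
        · right
          simp [hvw, h1]
        · left
          simp [hvw, h1]
    · intro v w
      by_cases hvw : v = w
      · subst hvw
        rfl
      · rw [if_neg hvw, if_neg (fun hh => hvw hh.symm), h.symm v w]
    · intro v
      exact if_pos rfl
    · intro v
      have h1 := hsum v (fun _ => 1)
      simp only [mul_one] at h1
      rw [h1, h.deg v, sum_const, card_univ, hn]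
      ring
    · intro v
      rw [hsum v x, h.ker v, hx0, sub_zero]
    · intro y hy
      have h1 : ∀ v, y v + ∑ w, W v w * y w = ∑ w, y w := by
        intro v
        have := hy v
        rw [hsum v y] at this
        linarith
      have h2 := h.sum_eq y
      rw [sum_congr rfl (fun v _ => h1 v), sum_const, card_univ, hn, nsmul_eq_mul] at h2
      have h3 : ∑ w, y w = 0 := by
        push_cast at h2
        have hρ' : (0 : ℝ) < ρ := by exact_mod_cast hρ
        have h4 : (ρ : ℝ) * ∑ w, y w = 0 := by linarith
        rcases mul_eq_zero.1 h4 with h5 | h5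
        · exact absurd h5 hρ'.ne'
        · exact h5
      exact h.uniq y (fun v => by rw [h1 v, h3])
  exact key.mem (by omega)

end Pool.Agent.J6H27.Nut4
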