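import Pool.Agent.J6H27.Nut4.Basic

/-!
Insertion of eight vertices into an edge of a cubic graph with simple eigenvalue `-1`.
-/

set_option autoImplicit false

namespace Pool.Agent.J6H27.Nut4

open Finset Pool.Agent.TH296.Nut

/-- The neighbours of a vertex of the inserted piece, within the piece. -/
def gad : Fin 8 → Fin 8 → Bool := fun i j =>
  (![![false, false, false, true, false, true, false, false],
    ![false, false, true, true, false, false, false, false],
    ![false, true, false, false, true, false, false, true],
    ![true, true, false, false, true, false, false, false],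
    ![false, false, true, true, false, false, true, false],
    ![true, false, false, false, false, false, true, true],
    ![false, false, false, false, true, true, false, true],
    ![false, false, true, false, false, true, true, false]] i) j

/-- The values on the inserted piece. -/
def gval (a b : ℝ) : Fin 8 → ℝ := ![b, a, b, -a - 2 * b, b, b, a, -a - 2 * b]

open Classical in
/-- The weights after the insertion of the piece into the edge `u v`. -/
noncomputable def ins {V : Type} (W : V → V → ℝ) (u v : V) : V ⊕ Fin 8 → V ⊕ Fin 8 → ℝ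
  | .inl a, .inl b => if (a = u ∧ b = v) ∨ (a = v ∧ b = u) then 0 else W a b
  | .inl a, .inr j => if (a = u ∧ j = 0) ∨ (a = v ∧ j = 1) then 1 else 0
  | .inr i, .inl b => if (b = u ∧ i = 0) ∨ (b = v ∧ i = 1) then 1 else 0
  | .inr i, .inr j => if gad i j then 1 else 0

/-- The kernel vector after the insertion. -/
def insx {V : Type} (x : V → ℝ) (u v : V) : V ⊕ Fin 8 → ℝ
  | .inl a => x a
  | .inr i => gval (x u) (x v) i

variable {V : Type} [Fintype V] {W : V → V → ℝ} {x : V → ℝ} {u v : V}

open Classical in
/-- The condition at an old vertex. -/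
theorem ins_inl (h : Cub V W x) (huv : W u v = 1) (y : V ⊕ Fin 8 → ℝ) (a : V) :
    y (.inl a) + ∑ w, ins W u v (.inl a) w * y w =
      (y (.inl a) + ∑ b, W a b * y (.inl b)) +
        (if a = u then y (.inr 0) - y (.inl v) else 0) +
        (if a = v then y (.inr 1) - y (.inl u) else 0) := by
  have hne : u ≠ v := by
    rintro rfl
    rw [h.diag] at huv
    exact zero_ne_one huv
  have hvu : W v u = 1 := by rw [h.symm]; exact huv
  rw [Fintype.sum_sum_type]
  have h1 : ∑ b, ins W u v (.inl a) (.inl b) * y (.inl b) = ∑ b, W a b * y (.inl b) -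
      (if a = u then y (.inl v) else 0) - (if a = v then y (.inl u) else 0) := by
    have h2 : ∀ b, ins W u v (.inl a) (.inl b) * y (.inl b) = W a b * y (.inl b) -
        (if b = v then (if a = u then y (.inl v) else 0) else 0) -
        (if b = u then (if a = v then y (.inl u) else 0) else 0) := by
      intro b
      show (if (a = u ∧ b = v) ∨ (a = v ∧ b = u) then (0 : ℝ) else W a b) * y (.inl b) = _
      by_cases h3 : a = u
      · subst h3
        by_cases h4 : b = v
        · subst h4
          simp [hne, huv, Ne.symm hne]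
        · simp [h4, hne]
      · by_cases h4 : a = v
        · subst h4
          by_cases h5 : b = u
          · subst h5
            simp [hne, hvu, Ne.symm hne]
          · simp [h5, h3]
        · simp [h3, h4]
    rw [sum_congr rfl (fun b _ => h2 b), sum_sub_distrib, sum_sub_distrib, sum_ite_eq',
      sum_ite_eq', if_pos (mem_univ _), if_pos (mem_univ _)]
  have h2 : ∑ j, ins W u v (.inl a) (.inr j) * y (.inr j) =
      (if a = u then y (.inr 0) else 0) + (if a = v then y (.inr 1) else 0) := by
    have h3 : ∀ j, ins W u v (.inl a) (.inr j) =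
        if (a = u ∧ j = 0) ∨ (a = v ∧ j = 1) then 1 else 0 := fun j => rfl
    simp only [h3]
    rw [Fin.sum_univ_eight]
    by_cases h4 : a = u
    · subst h4
      simp [hne]
    · by_cases h5 : a = v
      · subst h5
        simp [h4]
      · simp [h4, h5]
  rw [h1, h2]
  by_cases h4 : a = u
  · subst h4
    simp only [if_true, if_neg hne]
    ring
  · by_cases h5 : a = v
    · subst h5
      simp only [if_true, if_neg h4]
      ring
    · simp only [if_neg h4, if_neg h5]
      ring

/-- The sum at a new vertex. -/
theorem ins_inr (y : V ⊕ Fin 8 → ℝ) (i : Fin 8) :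
    ∑ w, ins W u v (.inr i) w * y w =
      (if i = 0 then y (.inl u) else 0) + (if i = 1 then y (.inl v) else 0) +
        ∑ j, (if gad i j then (1 : ℝ) else 0) * y (.inr j) := by
  classical
  rw [Fintype.sum_sum_type]
  congr 1
  have h2 : ∀ b, ins W u v (.inr i) (.inl b) * y (.inl b) =
      (if b = u then (if i = 0 then y (.inl u) else 0) else 0) +
      (if b = v then (if i = 1 then y (.inl v) else 0) else 0) := by
    intro b
    show (if (b = u ∧ i = 0) ∨ (b = v ∧ i = 1) then (1 : ℝ) else 0) * y (.inl b) = _
    by_cases h3 : i = 0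
    · subst h3
      by_cases h4 : b = u
      · subst h4
        simp
      · simp [h4]
    · by_cases h4 : i = 1
      · subst h4
        by_cases h5 : b = v
        · subst h5
          simp
        · simp [h5]
      · simp [h3, h4]
  rw [sum_congr rfl (fun b _ => h2 b), sum_add_distrib, sum_ite_eq', sum_ite_eq',
    if_pos (mem_univ _), if_pos (mem_univ _)]

/-- The eight conditions at the new vertices. -/
theorem new_iff (y : V ⊕ Fin 8 → ℝ) :
    (∀ i : Fin 8, y (.inr i) + ∑ w, ins W u v (.inr i) w * y w = 0) ↔
      ∀ i : Fin 8, y (.inr i) = gval (y (.inl u)) (y (.inl v)) i := by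
  constructor
  · intro hy
    have e : ∀ i : Fin 8, y (.inr i) + ((if i = 0 then y (.inl u) else 0) +
        (if i = 1 then y (.inl v) else 0) +
        ∑ j, (if gad i j then (1 : ℝ) else 0) * y (.inr j)) = 0 := by
      intro i
      rw [← ins_inr (W := W)]
      exact hy i
    have e0 := e 0
    have e1 := e 1
    have e2 := e 2
    have e3 := e 3
    have e4 := e 4
    have e5 := e 5
    have e6 := e 6
    have e7 := e 7
    simp [Fin.sum_univ_eight, gad] at e0 e1 e2 e3 e4 e5 e6 e7
    intro i
    fin_cases i <;> simp [gval] <;> linarith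
  · intro hy i
    rw [ins_inr (W := W), Fin.sum_univ_eight]
    simp only [hy]
    fin_cases i <;> simp [gval, gad] <;> ring

/-- **Insertion of eight vertices.** -/
theorem Cub.insert (h : Cub V W x) (huv : W u v = 1) (hab : x u + 2 * x v ≠ 0) :
    Cub (V ⊕ Fin 8) (ins W u v) (insx x u v) := by
  classical
  have hne : u ≠ v := by
    rintro rfl
    rw [h.diag] at huv
    exact zero_ne_one huv
  have hu := h.nz u
  have hv := h.nz v
  refine ⟨?_, ?_, ?_, ?_, ?_, ?_, ?_⟩
  · rintro (a | i) (b | j)
    · show (if (a = u ∧ b = v) ∨ (a = v ∧ b = u) then (0 : ℝ) else W a b) = 0 ∨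
        (if (a = u ∧ b = v) ∨ (a = v ∧ b = u) then (0 : ℝ) else W a b) = 1
      split_ifs
      · exact Or.inl rfl
      · exact h.zo a b
    · show (if (a = u ∧ j = 0) ∨ (a = v ∧ j = 1) then (1 : ℝ) else 0) = 0 ∨
        (if (a = u ∧ j = 0) ∨ (a = v ∧ j = 1) then (1 : ℝ) else 0) = 1
      split_ifs
      · exact Or.inr rfl
      · exact Or.inl rfl
    · show (if (b = u ∧ i = 0) ∨ (b = v ∧ i = 1) then (1 : ℝ) else 0) = 0 ∨
        (if (b = u ∧ i = 0) ∨ (b = v ∧ i = 1) then (1 : ℝ) else 0) = 1
      split_ifs
      · exact Or.inr rfl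
      · exact Or.inl rfl
    · show (if gad i j then (1 : ℝ) else 0) = 0 ∨ (if gad i j then (1 : ℝ) else 0) = 1
      split_ifs
      · exact Or.inr rfl
      · exact Or.inl rfl
  · rintro (a | i) (b | j)
    · show (if (a = u ∧ b = v) ∨ (a = v ∧ b = u) then (0 : ℝ) else W a b) =
        (if (b = u ∧ a = v) ∨ (b = v ∧ a = u) then (0 : ℝ) else W b a)
      rw [h.symm a b]
      congr 1
      apply propext
      tauto
    · rfl
    · rfl
    · show (if gad i j then (1 : ℝ) else 0) = if gad j i then (1 : ℝ) else 0
      have : ∀ i j : Fin 8, gad i j = gad j i := by decide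
      rw [this]
  · rintro (a | i)
    · show (if (a = u ∧ a = v) ∨ (a = v ∧ a = u) then (0 : ℝ) else W a a) = 0
      split_ifs
      · rfl
      · exact h.diag a
    · show (if gad i i then (1 : ℝ) else 0) = 0
      have : ∀ i : Fin 8, gad i i = false := by decide
      rw [this]
      simp
  · rintro (a | i)
    · have h1 := ins_inl h huv (fun _ => 1) a
      simp only [mul_one, h.deg, sub_self, ite_self, add_zero] at h1
      linarith
    · have h1 := ins_inr (W := W) (u := u) (v := v) (fun _ => 1) i
      simp only [mul_one] at h1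
      rw [h1, Fin.sum_univ_eight]
      fin_cases i <;> simp [gad] <;> norm_num
  · rintro (a | i)
    · exact h.nz a
    · show gval (x u) (x v) i ≠ 0
      have h2 : -x u - 2 * x v ≠ 0 := by
        intro h3
        apply hab
        linarith
      fin_cases i <;> simp [gval] <;> assumption
  · have hnew := (new_iff (W := W) (u := u) (v := v) (insx x u v)).2 (fun i => rfl)
    rintro (a | i)
    · rw [ins_inl h huv]
      show (x a + ∑ b, W a b * x b) + (if a = u then gval (x u) (x v) 0 - x v else 0) +
        (if a = v then gval (x u) (x v) 1 - x u else 0) = 0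
      rw [h.ker a]
      simp [gval]
    · exact hnew i
  · intro y hy
    have h1 := (new_iff (W := W) (u := u) (v := v) y).1 (fun i => hy (.inr i))
    have h2 : ∀ a : V, y (.inl a) + ∑ b, W a b * y (.inl b) = 0 := by
      intro a
      have h3 := hy (.inl a)
      rw [ins_inl h huv, h1 0, h1 1] at h3
      simpa [gval] using h3
    obtain ⟨c, hc⟩ := h.uniq (fun a => y (.inl a)) h2
    refine ⟨c, ?_⟩
    rintro (a | i)
    · exact hc a
    · rw [h1 i]
      show gval (y (.inl u)) (y (.inl v)) i = c * gval (x u) (x v) i
      have hu' : y (.inl u) = c * x u := hc u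
      have hv' : y (.inl v) = c * x v := hc v
      rw [hu', hv']
      fin_cases i <;> simp [gval] <;> ring

/-- A cubic graph with simple eigenvalue `-1` and an edge for the insertion. -/
def Good (n : ℕ) : Prop :=
  ∃ (V : Type) (_ : Fintype V) (W : V → V → ℝ) (x : V → ℝ) (u v : V),
    Fintype.card V = n ∧ Cub V W x ∧ W u v = 1 ∧ x u + 2 * x v ≠ 0

theorem Good.add_eight {n : ℕ} (h : Good n) : Good (n + 8) := by
  classical
  obtain ⟨V, _, W, x, u, v, hn, hC, huv, hab⟩ := h
  refine ⟨V ⊕ Fin 8, inferInstance, ins W u v, insx x u v, .inl u, .inr 0, ?_,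
    hC.insert huv hab, ?_, ?_⟩
  · rw [Fintype.card_sum, hn, Fintype.card_fin]
  · show (if (u = u ∧ (0 : Fin 8) = 0) ∨ (u = v ∧ (0 : Fin 8) = 1) then (1 : ℝ) else 0) = 1
    simp
  · show x u + 2 * gval (x u) (x v) 0 ≠ 0
    simpa [gval] using hab

theorem Good.add_mul {n : ℕ} (h : Good n) (j : ℕ) : Good (n + 8 * j) := by
  induction j with
  | zero => simpa using h
  | succ j ih =>
    have := ih.add_eight
    rwa [show n + 8 * (j + 1) = n + 8 * j + 8 by ring]

end Pool.Agent.J6H27.Nut4
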