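import Pool.Agent.J6H27.Nut4.Insert

/-!
Explicit cubic graphs with simple eigenvalue `-1` and an eigenvector without zero entries.
-/

set_option autoImplicit false

namespace Pool.Agent.J6H27.Nut4

open Finset Pool.Agent.TH296.Nut

/-- The entry of a matrix given by lists. -/
def en (A : List (List ℤ)) (i j : ℕ) : ℤ := (A.getD i []).getD j 0

/-- decidable certificate for a cubic graph on `Fin n` -/
def CExp (n : ℕ) (A L : List (List ℤ)) (x : List ℤ) (d : ℤ) (q : Fin n) : Prop :=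
  d ≠ 0 ∧
  (∀ i j : Fin n, en A i j = 0 ∨ en A i j = 1) ∧
  (∀ i j : Fin n, en A i j = en A j i) ∧
  (∀ i : Fin n, en A i i = 0) ∧
  (∀ i : Fin n, ∑ j : Fin n, en A i j = 3) ∧
  (∀ i : Fin n, x.getD i 0 ≠ 0) ∧
  (∀ i : Fin n, x.getD i 0 + ∑ j : Fin n, en A i j * x.getD j 0 = 0) ∧
  (∀ j k : Fin n, k ≠ q →
    ∑ i : Fin n, en L j i * (en A i k + if i = k then 1 else 0) = if j = k then d else 0) ∧
  (∀ j : Fin n, j ≠ q →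
    (∑ i : Fin n, en L j i * (en A i q + if i = q then 1 else 0)) * x.getD q 0 =
      - (d * x.getD j 0))

instance (n : ℕ) (A L : List (List ℤ)) (x : List ℤ) (d : ℤ) (q : Fin n) :
    Decidable (CExp n A L x d q) := by
  unfold CExp; infer_instance

theorem CExp.cub {n : ℕ} {A L : List (List ℤ)} {x : List ℤ} {d : ℤ} {q : Fin n}
    (h : CExp n A L x d q) :
    Cub (Fin n) (fun i j => (en A i j : ℝ)) (fun i => ((x.getD i 0 : ℤ) : ℝ)) := by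
  obtain ⟨cd, c1, c2, c3, c4, c5, c6, c7, c8⟩ := h
  have hx : ∀ i : Fin n, ((x.getD i 0 : ℤ) : ℝ) ≠ 0 := fun i => by exact_mod_cast c5 i
  have hd : (d : ℝ) ≠ 0 := by exact_mod_cast cd
  refine ⟨?_, ?_, ?_, ?_, hx, ?_, ?_⟩
  · intro i j
    rcases c1 i j with e | e
    · left; rw [e]; simp
    · right; rw [e]; simp
  · intro i j
    rw [c2 i j]
  · intro i
    rw [c3 i]
    simp
  · intro i
    exact_mod_cast c4 i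
  · intro i
    exact_mod_cast c6 i
  · intro y hy
    have hy' : ∀ i : Fin n,
        ∑ k : Fin n, ((en A i k : ℝ) + if i = k then 1 else 0) * y k = 0 := by
      intro i
      refine Eq.trans ?_ (hy i)
      simp only [add_mul, ite_mul, one_mul, zero_mul, sum_add_distrib, sum_ite_eq, mem_univ,
        if_true]
      ring
    refine ⟨y q / ((x.getD q 0 : ℤ) : ℝ), ?_⟩
    intro j
    by_cases hjq : j = q
    · subst hjq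
      rw [div_mul_cancel₀ _ (hx j)]
    · have h1 : ∑ i : Fin n, (en L j i : ℝ) *
          ∑ k : Fin n, ((en A i k : ℝ) + if i = k then 1 else 0) * y k = 0 := by
        refine Finset.sum_eq_zero fun i _ => ?_
        rw [hy' i, mul_zero]
      have h2 : ∑ i : Fin n, (en L j i : ℝ) *
          ∑ k : Fin n, ((en A i k : ℝ) + if i = k then 1 else 0) * y k =
          ∑ k : Fin n, ((∑ i : Fin n, en L j i * (en A i k + if i = k then 1 else 0) : ℤ) : ℝ) *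
            y k := by
        simp only [Finset.mul_sum]
        rw [Finset.sum_comm]
        refine Finset.sum_congr rfl fun k _ => ?_
        push_cast
        rw [Finset.sum_mul]
        refine Finset.sum_congr rfl fun i _ => ?_
        ring
      have h3 : ∑ k : Fin n,
          ((∑ i : Fin n, en L j i * (en A i k + if i = k then 1 else 0) : ℤ) : ℝ) * y k =
          ∑ k : Fin n, ((if k = j then (d : ℝ) * y j else 0) +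
            (if k = q then ((∑ i : Fin n, en L j i * (en A i q + if i = q then 1 else 0) : ℤ) : ℝ) *
              y q else 0)) := by
        refine Finset.sum_congr rfl fun k _ => ?_
        by_cases hkq : k = q
        · subst hkq
          rw [if_neg (fun hh => hjq hh.symm), if_pos rfl, zero_add]
        · rw [c7 j k hkq, if_neg hkq]
          by_cases hkj : k = j
          · subst hkj
            simp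
          · rw [if_neg hkj, if_neg (fun hh => hkj hh.symm)]
            simp
      rw [h2, h3, Finset.sum_add_distrib, Finset.sum_ite_eq', Finset.sum_ite_eq',
        if_pos (Finset.mem_univ _), if_pos (Finset.mem_univ _)] at h1
      have h4 : ((∑ i : Fin n, en L j i * (en A i q + if i = q then 1 else 0) : ℤ) : ℝ) *
          ((x.getD q 0 : ℤ) : ℝ) = - ((d : ℝ) * ((x.getD j 0 : ℤ) : ℝ)) := by
        exact_mod_cast c8 j hjq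
      generalize ((∑ i : Fin n, en L j i * (en A i q + if i = q then 1 else 0) : ℤ) : ℝ) = g
        at h1 h4
      have h5 := hx q
      generalize ((x.getD q 0 : ℤ) : ℝ) = xq at h4 h5 ⊢
      generalize ((x.getD j 0 : ℤ) : ℝ) = xj at h4 ⊢
      have h6 : d * (y j * xq) = d * (y q * xj) := by
        linear_combination xq * h1 - y q * h4
      have h7 := mul_left_cancel₀ hd h6
      field_simp
      linarith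

theorem CExp.good {n : ℕ} {A L : List (List ℤ)} {x : List ℤ} {d : ℤ} {q : Fin n}
    (h : CExp n A L x d q) (u v : Fin n) (huv : en A u v = 1)
    (hab : x.getD u 0 + 2 * x.getD v 0 ≠ 0) : Good n :=
  ⟨Fin n, inferInstance, _, _, u, v, Fintype.card_fin n, h.cub, by
    show ((en A u v : ℤ) : ℝ) = 1
    rw [huv]
    simp, by
    have : ((x.getD u 0 + 2 * x.getD v 0 : ℤ) : ℝ) ≠ 0 := by exact_mod_cast hab
    push_cast at this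
    exact this⟩

theorem good22 : Good 22 :=
  CExp.good (n := 22) (A := [
    [0, 0, 0, 0, 0, 0, 0, 0, 0, 1, 0, 0, 0, 1, 0, 0, 0, 0, 1, 0, 0, 0],
    [0, 0, 0, 0, 0, 0, 0, 0, 0, 0, 0, 0, 1, 0, 0, 0, 0, 1, 1, 0, 0, 0],
    [0, 0, 0, 0, 0, 0, 0, 0, 0, 0, 0, 0, 0, 0, 1, 0, 0, 0, 0, 0, 1, 1],
    [0, 0, 0, 0, 0, 0, 1, 0, 0, 1, 1, 0, 0, 0, 0, 0, 0, 0, 0, 0, 0, 0],
    [0, 0, 0, 0, 0, 0, 0, 0, 0, 0, 0, 1, 0, 1, 0, 1, 0, 0, 0, 0, 0, 0],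
    [0, 0, 0, 0, 0, 0, 0, 0, 0, 1, 0, 0, 0, 0, 0, 1, 0, 1, 0, 0, 0, 0],
    [0, 0, 0, 1, 0, 0, 0, 0, 0, 0, 0, 0, 0, 0, 1, 0, 0, 0, 0, 0, 0, 1],
    [0, 0, 0, 0, 0, 0, 0, 0, 1, 0, 0, 0, 0, 1, 0, 1, 0, 0, 0, 0, 0, 0],
    [0, 0, 0, 0, 0, 0, 0, 1, 0, 0, 0, 0, 0, 0, 0, 0, 0, 1, 1, 0, 0, 0],
    [1, 0, 0, 1, 0, 1, 0, 0, 0, 0, 0, 0, 0, 0, 0, 0, 0, 0, 0, 0, 0, 0],
    [0, 0, 0, 1, 0, 0, 0, 0, 0, 0, 0, 1, 1, 0, 0, 0, 0, 0, 0, 0, 0, 0],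
    [0, 0, 0, 0, 1, 0, 0, 0, 0, 0, 1, 0, 0, 0, 0, 0, 0, 0, 0, 0, 1, 0],
    [0, 1, 0, 0, 0, 0, 0, 0, 0, 0, 1, 0, 0, 0, 0, 0, 0, 0, 0, 1, 0, 0],
    [1, 0, 0, 0, 1, 0, 0, 1, 0, 0, 0, 0, 0, 0, 0, 0, 0, 0, 0, 0, 0, 0],
    [0, 0, 1, 0, 0, 0, 1, 0, 0, 0, 0, 0, 0, 0, 0, 0, 1, 0, 0, 0, 0, 0],
    [0, 0, 0, 0, 1, 1, 0, 1, 0, 0, 0, 0, 0, 0, 0, 0, 0, 0, 0, 0, 0, 0],
    [0, 0, 0, 0, 0, 0, 0, 0, 0, 0, 0, 0, 0, 0, 1, 0, 0, 0, 0, 1, 0, 1],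
    [0, 1, 0, 0, 0, 1, 0, 0, 1, 0, 0, 0, 0, 0, 0, 0, 0, 0, 0, 0, 0, 0],
    [1, 1, 0, 0, 0, 0, 0, 0, 1, 0, 0, 0, 0, 0, 0, 0, 0, 0, 0, 0, 0, 0],
    [0, 0, 0, 0, 0, 0, 0, 0, 0, 0, 0, 0, 1, 0, 0, 0, 1, 0, 0, 0, 1, 0],
    [0, 0, 1, 0, 0, 0, 0, 0, 0, 0, 0, 1, 0, 0, 0, 0, 0, 0, 0, 1, 0, 0],
    [0, 0, 1, 0, 0, 0, 1, 0, 0, 0, 0, 0, 0, 0, 0, 0, 1, 0, 0, 0, 0, 0]])
    (L := [
    [0, 0, 0, 0, 0, 0, 0, 0, 0, 0, 0, 0, 0, 0, 0, 0, 0, 0, 0, 0, 0, 0],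
    [0, 4, 0, 12, -12, 8, -4, -2, -18, -20, 12, -8, -16, 14, -4, 6, 8, 6, 14, 0, 8, -4],
    [0, 0, 8, 8, 8, -8, -8, -4, 4, 0, 0, -8, 0, -4, 0, 4, 0, 4, -4, 0, 0, 0],
    [0, 12, 8, 20, 12, -24, -12, 2, 2, 4, -4, -8, -8, -14, -4, 10, 8, 10, -14, 0, 0, -4],
    [0, -12, 8, 12, 4, 8, -4, -18, -2, -20, 12, -16, -8, 14, -4, 6, 0, 6, 14, 8, 0, -4],
    [0, 8, -8, -24, 8, -16, 8, 16, 16, 40, -24, 24, 24, -24, 8, -8, -8, -8, -24, -8, -8, 8],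
    [0, -4, -8, -12, -4, 8, 12, 2, 2, 4, -4, 8, 8, 2, 4, -6, -8, -6, 2, 0, 0, 4],
    [0, -2, -4, 2, -18, 16, 2, -1, -13, -18, 14, -4, -12, 19, -2, 3, 4, -1, 15, 0, 8, -2],
    [0, -18, 4, 2, -2, 16, 2, -13, -1, -18, 14, -12, -4, 15, -2, -1, -4, 3, 19, 8, 0, -2],
    [0, -20, 0, 4, -20, 40, 4, -18, -18, -36, 28, -16, -16, 38, -4, -2, 0, -2, 38, 8, 8, -4],
    [0, 12, 0, -4, 12, -24, -4, 14, 14, 28, -20, 16, 16, -26, 4, -2, 0, -2, -26, -8, -8, 4],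
    [0, -8, -8, -8, -16, 24, 8, -4, -12, -16, 16, 0, -8, 20, 0, -4, 0, -4, 20, 0, 8, 0],
    [0, -16, 0, -8, -8, 24, 8, -12, -4, -16, 16, -8, 0, 20, 0, -4, -8, -4, 20, 8, 0, 0],
    [0, 14, -4, -14, 14, -24, 2, 19, 15, 38, -26, 20, 20, -25, 6, -9, -4, -5, -29, -8, -8, 6],
    [0, -4, 0, -4, -4, 8, 4, -2, -2, -4, 4, 0, 0, 6, 4, -2, 0, -2, 6, 0, 0, -4],
    [0, 6, 4, 10, 6, -8, -6, 3, -1, -2, -2, -4, -4, -9, -2, 7, 4, 3, -5, 0, 0, -2],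
    [0, 8, 0, 8, 0, -8, -8, 4, -4, 0, 0, 0, -8, -4, 0, 4, 8, 4, -4, 0, 0, 0],
    [0, 6, 4, 10, 6, -8, -6, -1, 3, -2, -2, -4, -4, -5, -2, 3, 4, 7, -9, 0, 0, -2],
    [0, 14, -4, -14, 14, -24, 2, 15, 19, 38, -26, 20, 20, -29, 6, -5, -4, -9, -25, -8, -8, 6],
    [0, 0, 0, 0, 8, -8, 0, 0, 8, 8, -8, 0, 8, -8, 0, 0, 0, 0, -8, 0, 0, 0],
    [0, 8, 0, 0, 0, -8, 0, 8, 0, 8, -8, 8, 0, -8, 0, 0, 0, 0, -8, 0, 0, 0],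
    [0, -4, 0, -4, -4, 8, 4, -2, -2, -4, 4, 0, 0, 6, -4, -2, 0, -2, 6, 0, 0, 4]])
    (x := [-1, 1, -1, -3, 1, -1, 1, 2, 2, 5, -3, 3, 3, -2, 1, -2, -1, -2, -2, -1, -1, 1])
    (d := 8) (q := 0) (by decide +kernel) 0 9 (by decide +kernel) (by decide +kernel)

theorem good26 : Good 26 :=
  CExp.good (n := 26) (A := [
    [0, 0, 1, 0, 0, 1, 0, 0, 0, 0, 0, 0, 0, 0, 1, 0, 0, 0, 0, 0, 0, 0, 0, 0, 0, 0],
    [0, 0, 0, 0, 1, 0, 0, 1, 0, 0, 0, 0, 0, 0, 0, 1, 0, 0, 0, 0, 0, 0, 0, 0, 0, 0],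
    [1, 0, 0, 1, 0, 0, 0, 0, 0, 1, 0, 0, 0, 0, 0, 0, 0, 0, 0, 0, 0, 0, 0, 0, 0, 0],
    [0, 0, 1, 0, 0, 0, 0, 0, 0, 0, 0, 0, 0, 0, 1, 0, 0, 0, 0, 0, 0, 0, 0, 0, 1, 0],
    [0, 1, 0, 0, 0, 0, 0, 0, 0, 0, 0, 0, 1, 0, 0, 0, 0, 0, 0, 0, 0, 0, 1, 0, 0, 0],
    [1, 0, 0, 0, 0, 0, 0, 0, 0, 0, 0, 0, 0, 0, 0, 0, 0, 0, 0, 0, 0, 1, 0, 0, 0, 1],
    [0, 0, 0, 0, 0, 0, 0, 0, 1, 1, 0, 0, 0, 0, 0, 0, 0, 0, 1, 0, 0, 0, 0, 0, 0, 0],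
    [0, 1, 0, 0, 0, 0, 0, 0, 1, 0, 0, 0, 1, 0, 0, 0, 0, 0, 0, 0, 0, 0, 0, 0, 0, 0],
    [0, 0, 0, 0, 0, 0, 1, 1, 0, 0, 0, 0, 0, 0, 0, 0, 0, 0, 0, 0, 1, 0, 0, 0, 0, 0],
    [0, 0, 1, 0, 0, 0, 1, 0, 0, 0, 0, 0, 0, 0, 1, 0, 0, 0, 0, 0, 0, 0, 0, 0, 0, 0],
    [0, 0, 0, 0, 0, 0, 0, 0, 0, 0, 0, 1, 0, 0, 0, 0, 0, 0, 0, 1, 0, 0, 1, 0, 0, 0],
    [0, 0, 0, 0, 0, 0, 0, 0, 0, 0, 1, 0, 0, 0, 0, 0, 1, 0, 0, 0, 1, 0, 0, 0, 0, 0],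
    [0, 0, 0, 0, 1, 0, 0, 1, 0, 0, 0, 0, 0, 0, 0, 0, 0, 0, 0, 1, 0, 0, 0, 0, 0, 0],
    [0, 0, 0, 0, 0, 0, 0, 0, 0, 0, 0, 0, 0, 0, 0, 0, 0, 0, 0, 0, 0, 1, 0, 1, 0, 1],
    [1, 0, 0, 1, 0, 0, 0, 0, 0, 1, 0, 0, 0, 0, 0, 0, 0, 0, 0, 0, 0, 0, 0, 0, 0, 0],
    [0, 1, 0, 0, 0, 0, 0, 0, 0, 0, 0, 0, 0, 0, 0, 0, 0, 1, 0, 0, 0, 1, 0, 0, 0, 0],
    [0, 0, 0, 0, 0, 0, 0, 0, 0, 0, 0, 1, 0, 0, 0, 0, 0, 1, 0, 0, 0, 0, 0, 1, 0, 0],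
    [0, 0, 0, 0, 0, 0, 0, 0, 0, 0, 0, 0, 0, 0, 0, 1, 1, 0, 0, 0, 0, 0, 0, 0, 1, 0],
    [0, 0, 0, 0, 0, 0, 1, 0, 0, 0, 0, 0, 0, 0, 0, 0, 0, 0, 0, 0, 0, 0, 0, 0, 1, 1],
    [0, 0, 0, 0, 0, 0, 0, 0, 0, 0, 1, 0, 1, 0, 0, 0, 0, 0, 0, 0, 1, 0, 0, 0, 0, 0],
    [0, 0, 0, 0, 0, 0, 0, 0, 1, 0, 0, 1, 0, 0, 0, 0, 0, 0, 0, 1, 0, 0, 0, 0, 0, 0],
    [0, 0, 0, 0, 0, 1, 0, 0, 0, 0, 0, 0, 0, 1, 0, 1, 0, 0, 0, 0, 0, 0, 0, 0, 0, 0],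
    [0, 0, 0, 0, 1, 0, 0, 0, 0, 0, 1, 0, 0, 0, 0, 0, 0, 0, 0, 0, 0, 0, 0, 1, 0, 0],
    [0, 0, 0, 0, 0, 0, 0, 0, 0, 0, 0, 0, 0, 1, 0, 0, 1, 0, 0, 0, 0, 0, 1, 0, 0, 0],
    [0, 0, 0, 1, 0, 0, 0, 0, 0, 0, 0, 0, 0, 0, 0, 0, 0, 1, 1, 0, 0, 0, 0, 0, 0, 0],
    [0, 0, 0, 0, 0, 1, 0, 0, 0, 0, 0, 0, 0, 1, 0, 0, 0, 0, 1, 0, 0, 0, 0, 0, 0, 0]])
    (L := [
    [0, 0, 0, 0, 0, 0, 0, 0, 0, 0, 0, 0, 0, 0, 0, 0, 0, 0, 0, 0, 0, 0, 0, 0, 0, 0],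
    [0, 80, -32, 36, 42, 40, 68, -42, 16, -4, 42, -28, -54, 56, -32, -72, 28, 16, -80, 54, -42,
      -24, -68, -16, 28, -16],
    [0, -32, 16, -12, -18, -16, -28, 18, -8, 4, -18, 12, 22, -24, 8, 32, -12, -8, 32, -22, 18, 8,
      28, 8, -12, 8],
    [0, 36, -12, 28, 24, 16, 40, -28, 16, -16, 24, -16, -24, 28, -12, -32, 20, 8, -40, 28, -28,
      -12, -36, -12, 4, -4],
    [0, 42, -18, 24, 27, 20, 42, -29, 12, -6, 23, -14, -25, 34, -18, -40, 16, 12, -48, 27, -25,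
      -14, -36, -14, 12, -6],
    [0, 40, -16, 16, 20, 24, 32, -20, 8, 0, 20, -16, -28, 24, -16, -40, 16, 8, -40, 28, -20, -8,
      -32, -8, 16, -8],
    [0, 68, -28, 40, 42, 32, 68, -46, 24, -12, 42, -28, -46, 52, -28, -64, 32, 16, -72, 50, -46,
      -20, -64, -20, 16, -12],
    [0, -42, 18, -28, -29, -20, -46, 31, -12, 10, -25, 18, 31, -34, 18, 40, -20, -12, 48, -33,
      27, 14, 40, 14, -8, 6],
    [0, 16, -8, 16, 12, 8, 24, -12, 8, -8, 12, -8, -12, 16, -8, -16, 8, 8, -24, 12, -12, -8, -16,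
      -8, 0, 0],
    [0, -4, 4, -16, -6, 0, -12, 10, -8, 12, -6, 4, 2, -4, 4, 0, -8, 0, 8, -6, 10, 4, 8, 4, 8, -4],
    [0, 42, -18, 24, 23, 20, 42, -25, 12, -6, 27, -14, -29, 34, -18, -40, 16, 12, -48, 31, -29,
      -14, -36, -14, 12, -6],
    [0, -28, 12, -16, -14, -16, -28, 18, -8, 4, -14, 12, 18, -20, 12, 24, -8, -8, 32, -22, 18,
      12, 24, 4, -8, 4],
    [0, -54, 22, -24, -25, -28, -46, 31, -12, 2, -29, 18, 35, -38, 22, 48, -16, -12, 56, -33, 27,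
      18, 44, 10, -20, 10],
    [0, 56, -24, 28, 34, 24, 52, -34, 16, -4, 34, -20, -38, 48, -24, -56, 20, 16, -64, 38, -34,
      -16, -52, -16, 20, -8],
    [0, -32, 8, -12, -18, -16, -28, 18, -8, 4, -18, 12, 22, -24, 16, 32, -12, -8, 32, -22, 18, 8,
      28, 8, -12, 8],
    [0, -72, 32, -32, -40, -40, -64, 40, -16, 0, -40, 24, 48, -56, 32, 72, -24, -16, 80, -48, 40,
      24, 64, 16, -32, 16],
    [0, 28, -12, 20, 16, 16, 32, -20, 8, -8, 16, -8, -16, 20, -12, -24, 12, 8, -32, 20, -20, -12,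
      -28, -4, 4, -4],
    [0, 16, -8, 8, 12, 8, 16, -12, 8, 0, 12, -8, -12, 16, -8, -16, 8, 8, -24, 12, -12, -8, -16,
      -8, 8, 0],
    [0, -80, 32, -40, -48, -40, -72, 48, -24, 8, -48, 32, 56, -64, 32, 80, -32, -24, 88, -56, 48,
      24, 72, 24, -24, 16],
    [0, 54, -22, 28, 27, 28, 50, -33, 12, -6, 31, -22, -33, 38, -22, -48, 20, 12, -56, 39, -29,
      -18, -48, -10, 16, -10],
    [0, -42, 18, -28, -25, -20, -46, 27, -12, 10, -29, 18, 27, -34, 18, 40, -20, -12, 48, -29,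
      31, 14, 40, 14, -8, 6],
    [0, -24, 8, -12, -14, -8, -20, 14, -8, 4, -14, 12, 18, -16, 8, 24, -12, -8, 24, -18, 14, 8,
      20, 8, -4, 0],
    [0, -68, 28, -36, -36, -32, -64, 40, -16, 8, -36, 24, 44, -52, 28, 64, -28, -16, 72, -48, 40,
      20, 60, 20, -20, 12],
    [0, -16, 8, -12, -14, -8, -20, 14, -8, 4, -14, 4, 10, -16, 8, 16, -4, -8, 24, -10, 14, 8, 20,
      8, -4, 0],
    [0, 28, -12, 4, 12, 16, 16, -8, 0, 8, 12, -8, -20, 20, -12, -32, 4, 8, -24, 16, -8, -4, -20,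
      -4, 20, -12],
    [0, -16, 8, -4, -6, -8, -12, 6, 0, -4, -6, 4, 10, -8, 8, 16, -4, 0, 16, -10, 6, 0, 12, 0,
      -12, 8]])
    (x := [-1, -3, 1, -1, -2, -1, -3, 2, -1, 1, -2, 1, 2, -3, 1, 3, -1, -1, 3, -2, 2, 1, 3, 1, -1, 1])
    (d := 8) (q := 0) (by decide +kernel) 0 2 (by decide +kernel) (by decide +kernel)

/-- **Order `ρ + 4` for `ρ ≡ 2 (mod 4)`.** -/
theorem mem_add_four {ρ : ℕ} (h4 : ρ % 4 = 2) (h18 : 18 ≤ ρ) : ρ + 4 ∈ nutOrders ρ := by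
  have hg : Good (ρ + 4) := by
    rcases Nat.lt_or_ge (ρ % 8) 4 with h8 | h8
    · have := good22.add_mul ((ρ - 18) / 8)
      rwa [show 22 + 8 * ((ρ - 18) / 8) = ρ + 4 by omega] at this
    · have := good26.add_mul ((ρ - 22) / 8)
      rwa [show 26 + 8 * ((ρ - 22) / 8) = ρ + 4 by omega] at this
  obtain ⟨V, _, W, x, -, -, hn, hC, -, -⟩ := hg
  have := hC.mem hn (by omega)
  rwa [hn] at this

end Pool.Agent.J6H27.Nut4
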